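import Mathlib

/-!
Primes in a residue class: the sum of `1 / p ^ s` is at least `c log (1 / (s - 1)) - C` as `s → 1`.
-/

set_option autoImplicit false

namespace Pool.Agent.Y518.AM

open ArithmeticFunction.vonMangoldt

variable {q : ℕ}

/-- primes in a residue class -/
def PC (a : ZMod q) : Set ℕ := {p | p.Prime ∧ (p : ZMod q) = a}

/-- the logarithmically weighted sum -/
noncomputable def FF (a : ZMod q) (x : ℝ) : ℝ :=
  ∑' n : ℕ, (PC a).indicator (fun n : ℕ => Real.log n / (n : ℝ) ^ x) n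

/-- the sum of `1 / p ^ x` -/
noncomputable def GG (a : ZMod q) (x : ℝ) : ℝ :=
  ∑' n : ℕ, (PC a).indicator (fun n : ℕ => 1 / (n : ℝ) ^ x) n

theorem rc_prime (a : ZMod q) (n : ℕ) (x : ℝ) :
    (if n.Prime then residueClass a n else 0) / (n : ℝ) ^ x =
      (PC a).indicator (fun n : ℕ => Real.log n / (n : ℝ) ^ x) n := by
  classical
  by_cases hp : n.Prime
  · rw [if_pos hp]
    by_cases hr : (n : ZMod q) = a
    · have h1 : n ∈ PC a := ⟨hp, hr⟩
      rw [Set.indicator_of_mem h1]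
      congr 1
      unfold residueClass
      rw [Set.indicator_of_mem (by exact hr), ArithmeticFunction.vonMangoldt_apply_prime hp]
    · have h1 : n ∉ PC a := fun h => hr h.2
      rw [Set.indicator_of_notMem h1]
      unfold residueClass
      rw [Set.indicator_of_notMem (by exact hr), zero_div]
  · have h1 : n ∉ PC a := fun h => hp h.1
    rw [if_neg hp, Set.indicator_of_notMem h1, zero_div]

theorem summable_rc [NeZero q] (a : ZMod q) {x : ℝ} (hx : 1 < x) :
    Summable fun n : ℕ => residueClass a n / (n : ℝ) ^ x :=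
  LSeries.summable_real_of_abscissaOfAbsConv_lt <|
    (abscissaOfAbsConv_residueClass_le_one a).trans_lt <| mod_cast hx

theorem summable_FF [NeZero q] (a : ZMod q) {x : ℝ} (hx : 1 < x) :
    Summable fun n : ℕ => (PC a).indicator (fun n : ℕ => Real.log n / (n : ℝ) ^ x) n := by
  refine Summable.of_nonneg_of_le ?_ ?_ (summable_rc a hx)
  · intro n
    refine Set.indicator_nonneg ?_ n
    intro n _
    exact div_nonneg (Real.log_natCast_nonneg n) (by positivity)
  · intro n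
    rw [← rc_prime]
    split_ifs
    · exact le_rfl
    · rw [zero_div]
      exact div_nonneg (residueClass_nonneg a n) (by positivity)

theorem summable_GG (a : ZMod q) {x : ℝ} (hx : 1 < x) :
    Summable fun n : ℕ => (PC a).indicator (fun n : ℕ => 1 / (n : ℝ) ^ x) n :=
  (Real.summable_one_div_nat_rpow.mpr hx).indicator _

theorem FF_lower [NeZero q] {a : ZMod q} (ha : IsUnit a) :
    ∃ C : ℝ, 0 ≤ C ∧ ∀ x : ℝ, 1 < x → x ≤ 2 → (q.totient : ℝ)⁻¹ / (x - 1) - C ≤ FF a x := by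
  obtain ⟨C, hC⟩ := LSeries_residueClass_lower_bound ha
  set D : ℝ := ∑' n : ℕ, (if n.Prime then 0 else residueClass a n) / n with hD
  refine ⟨|C| + |D|, by positivity, fun x h1 h2 => ?_⟩
  have h3 := hC (x := x) ⟨h1, h2⟩
  have hs0 := summable_residueClass_non_primes_div a
  have hle : ∀ n : ℕ, (if n.Prime then 0 else residueClass a n) / (n : ℝ) ^ x ≤
      (if n.Prime then 0 else residueClass a n) / n := by
    intro n
    rcases n.eq_zero_or_pos with rfl | hn
    · simp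
    · refine div_le_div_of_nonneg_left ?_ (mod_cast hn) ?_
      · split_ifs
        · exact le_rfl
        · exact residueClass_nonneg a n
      · conv_lhs => rw [← Real.rpow_one (n : ℝ)]
        exact Real.rpow_le_rpow_of_exponent_le (by exact_mod_cast hn) h1.le
  have hnn : ∀ n : ℕ, 0 ≤ (if n.Prime then 0 else residueClass a n) / (n : ℝ) ^ x := by
    intro n
    refine div_nonneg ?_ (by positivity)
    split_ifs
    · exact le_rfl
    · exact residueClass_nonneg a n
  have hs1 : Summable fun n : ℕ => (if n.Prime then 0 else residueClass a n) / (n : ℝ) ^ x :=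
    Summable.of_nonneg_of_le hnn hle hs0
  have h4 : ∑' n : ℕ, (if n.Prime then 0 else residueClass a n) / (n : ℝ) ^ x ≤ D :=
    Summable.tsum_le_tsum hle hs1 hs0
  have h5 : ∑' n : ℕ, residueClass a n / (n : ℝ) ^ x = FF a x +
      ∑' n : ℕ, (if n.Prime then 0 else residueClass a n) / (n : ℝ) ^ x := by
    unfold FF
    rw [← (summable_FF a h1).tsum_add hs1]
    refine tsum_congr fun n => ?_
    rw [← rc_prime]
    split_ifs
    · rw [zero_div, add_zero]
    · rw [zero_div, zero_add]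
  rw [h5] at h3
  have := le_abs_self C
  have := le_abs_self D
  linarith

theorem GG_step [NeZero q] (a : ZMod q) {s t : ℝ} (hs : 1 < s) (hst : s ≤ t) :
    (t - s) * FF a t ≤ GG a s - GG a t := by
  have ht : 1 < t := hs.trans_le hst
  unfold GG FF
  rw [← tsum_mul_left, ← (summable_GG a hs).tsum_sub (summable_GG a ht)]
  refine Summable.tsum_le_tsum ?_ ((summable_FF a ht).mul_left _)
    ((summable_GG a hs).sub (summable_GG a ht))
  intro n
  by_cases hn : n ∈ PC a
  · rw [Set.indicator_of_mem hn, Set.indicator_of_mem hn, Set.indicator_of_mem hn]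
    have hn0 : (0 : ℝ) < n := by exact_mod_cast hn.1.pos
    have h1 : (0 : ℝ) < (n : ℝ) ^ t := Real.rpow_pos_of_pos hn0 t
    have h2 : (0 : ℝ) < (n : ℝ) ^ s := Real.rpow_pos_of_pos hn0 s
    have h3 : (n : ℝ) ^ t = (n : ℝ) ^ s * (n : ℝ) ^ (t - s) := by
      rw [← Real.rpow_add hn0]; congr 1; ring
    have h4 : (t - s) * Real.log n + 1 ≤ (n : ℝ) ^ (t - s) := by
      rw [Real.rpow_def_of_pos hn0]
      have := Real.add_one_le_exp (Real.log n * (t - s))
      linarith
    have h5 : 1 / (n : ℝ) ^ s = (n : ℝ) ^ (t - s) / (n : ℝ) ^ t := by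
      rw [h3]
      have : (0 : ℝ) < (n : ℝ) ^ (t - s) := Real.rpow_pos_of_pos hn0 _
      field_simp
    rw [h5, mul_div_assoc', ← sub_div]
    apply div_le_div_of_nonneg_right _ h1.le
    linarith
  · rw [Set.indicator_of_notMem hn, Set.indicator_of_notMem hn, Set.indicator_of_notMem hn]
    simp

theorem GG_nonneg (a : ZMod q) (x : ℝ) : 0 ≤ GG a x := by
  refine tsum_nonneg fun n => Set.indicator_nonneg (fun n _ => ?_) n
  positivity

theorem FF_nonneg (a : ZMod q) (x : ℝ) : 0 ≤ FF a x := by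
  refine tsum_nonneg fun n => Set.indicator_nonneg (fun n _ => ?_) n
  exact div_nonneg (Real.log_natCast_nonneg n) (by positivity)

theorem GG_anti [NeZero q] (a : ZMod q) {s t : ℝ} (hs : 1 < s) (hst : s ≤ t) : GG a t ≤ GG a s := by
  have h1 := GG_step a hs hst
  have h2 : 0 ≤ (t - s) * FF a t := mul_nonneg (by linarith) (FF_nonneg a t)
  linarith

theorem GG_dyadic [NeZero q] {a : ZMod q} {C : ℝ} (hC0 : 0 ≤ C)
    (hC : ∀ x : ℝ, 1 < x → x ≤ 2 → (q.totient : ℝ)⁻¹ / (x - 1) - C ≤ FF a x) (k : ℕ) :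
    k * ((q.totient : ℝ)⁻¹ / 2) - C * (1 - (1 / 2) ^ k) ≤ GG a (1 + (1 / 2) ^ k) := by
  induction k with
  | zero => simpa using GG_nonneg a _
  | succ k ih =>
    set e : ℝ := (1 / 2) ^ k with he
    have he0 : 0 < e := by positivity
    have he1 : e ≤ 1 := pow_le_one₀ (by norm_num) (by norm_num)
    have h1 : ((1 : ℝ) / 2) ^ (k + 1) = e / 2 := by rw [pow_succ]; ring
    rw [h1]
    have h2 := GG_step a (s := 1 + e / 2) (t := 1 + e) (by linarith) (by linarith)
    have h3 := hC (1 + e) (by linarith) (by linarith)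
    have h4 : (1 + e - (1 + e / 2)) * ((q.totient : ℝ)⁻¹ / (1 + e - 1) - C) ≤
        (1 + e - (1 + e / 2)) * FF a (1 + e) :=
      mul_le_mul_of_nonneg_left h3 (by linarith)
    have h5 : (1 + e - (1 + e / 2)) * ((q.totient : ℝ)⁻¹ / (1 + e - 1) - C) =
        (q.totient : ℝ)⁻¹ / 2 - C * (e / 2) := by
      have h6 : 1 + e - 1 = e := by ring
      rw [h6]
      field_simp
      ring
    push_cast
    nlinarith [h2, h4, h5, ih]

/-- Lower bound for the sum of `1 / p ^ s` over the primes in a residue class. -/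
theorem GG_lower [NeZero q] {a : ZMod q} (ha : IsUnit a) :
    ∃ c C : ℝ, 0 < c ∧ ∀ s : ℝ, 1 < s → s ≤ 2 → c * Real.log (1 / (s - 1)) - C ≤ GG a s := by
  obtain ⟨C, hC0, hC⟩ := FF_lower ha
  have hphi : (0 : ℝ) < (q.totient : ℝ)⁻¹ := inv_pos.mpr (mod_cast q.totient.pos_of_neZero)
  have hl2 : 0 < Real.log 2 := Real.log_pos (by norm_num)
  refine ⟨(q.totient : ℝ)⁻¹ / 2 / Real.log 2, (q.totient : ℝ)⁻¹ / 2 + C, by positivity,
    fun s h1 h2 => ?_⟩
  set y : ℝ := Real.log (1 / (s - 1)) / Real.log 2 with hy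
  have hs0 : 0 < s - 1 := by linarith
  have hy0 : 0 ≤ y := by
    apply div_nonneg _ hl2.le
    apply Real.log_nonneg
    rw [le_div_iff₀ hs0]; linarith
  set k : ℕ := ⌊y⌋₊ with hk
  have hk1 : (k : ℝ) ≤ y := Nat.floor_le hy0
  have hk2 : y < k + 1 := Nat.lt_floor_add_one y
  have h3 : s ≤ 1 + (1 / 2) ^ k := by
    have h4 : (k : ℝ) * Real.log 2 ≤ Real.log (1 / (s - 1)) := by
      rw [hy, le_div_iff₀ hl2] at hk1
      exact hk1
    rw [← Real.log_rpow (by norm_num), Real.log_le_log_iff (by positivity) (by positivity),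
      Real.rpow_natCast, le_div_iff₀ hs0] at h4
    have h5 : ((1 : ℝ) / 2) ^ k = 1 / 2 ^ k := by rw [one_div, one_div, inv_pow]
    rw [h5]
    have h6 : s - 1 ≤ 1 / 2 ^ k := by
      rw [le_div_iff₀ (by positivity)]
      linarith
    linarith
  have h4 := GG_anti a h1 h3
  have h5 := GG_dyadic hC0 hC k
  have h6 : ((1 : ℝ) / 2) ^ k ≥ 0 := by positivity
  have h7 : (q.totient : ℝ)⁻¹ / 2 / Real.log 2 * Real.log (1 / (s - 1)) =
      (q.totient : ℝ)⁻¹ / 2 * y := by
    rw [hy]; field_simp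
  rw [h7]
  nlinarith [h4, h5, h6, hk2, hphi]

/-- A set of numbers with `2 p + 1 ∈ H` for all large primes `p` in a residue class. -/
theorem transfer [NeZero q] {a : ZMod q} (ha : IsUnit a) (H : Set ℕ) (B : ℕ)
    (hH : ∀ p ∈ PC a, B < p → 2 * p + 1 ∈ H) :
    ∃ c C : ℝ, 0 < c ∧ ∀ s : ℝ, 1 < s → s ≤ 2 →
      c * Real.log (1 / (s - 1)) - C ≤ ∑' n : ℕ, H.indicator (fun n : ℕ => 1 / (n : ℝ) ^ s) n := by
  classical
  obtain ⟨c, C, hc, h⟩ := GG_lower ha
  refine ⟨c / 9, (C + (B + 1)) / 9, by positivity, fun s h1 h2 => ?_⟩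
  have h3 := h s h1 h2
  have hsH : Summable (fun n : ℕ => H.indicator (fun n : ℕ => 1 / (n : ℝ) ^ s) n) :=
    (Real.summable_one_div_nat_rpow.mpr h1).indicator _
  have hinj : Function.Injective (fun n : ℕ => 2 * n + 1) := fun a b h => by
    simp only at h; omega
  have hs2 : Summable (fun n : ℕ => H.indicator (fun n : ℕ => 1 / (n : ℝ) ^ s) (2 * n + 1)) :=
    hsH.comp_injective hinj
  have h4 : ∑' n : ℕ, H.indicator (fun n : ℕ => 1 / (n : ℝ) ^ s) (2 * n + 1) ≤
      ∑' n : ℕ, H.indicator (fun n : ℕ => 1 / (n : ℝ) ^ s) n := by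
    refine Summable.tsum_le_tsum_of_inj (fun n : ℕ => 2 * n + 1) hinj ?_ ?_ hs2 hsH
    · intro n _
      exact Set.indicator_nonneg (fun n _ => by positivity) n
    · intro n
      exact le_rfl
  have hfs : Summable (fun n : ℕ => if n ∈ Finset.range (B + 1) then (1 : ℝ) else 0) :=
    summable_of_ne_finset_zero (s := Finset.range (B + 1)) (fun n hn => if_neg hn)
  have hft : ∑' n : ℕ, (if n ∈ Finset.range (B + 1) then (1 : ℝ) else 0) = B + 1 := by
    rw [tsum_eq_sum (s := Finset.range (B + 1)) (fun n hn => if_neg hn)]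
    rw [Finset.sum_congr rfl (fun n hn => if_pos hn)]
    simp
  have h5 : GG a s ≤ 9 * ∑' n : ℕ, H.indicator (fun n : ℕ => 1 / (n : ℝ) ^ s) (2 * n + 1) +
      (B + 1) := by
    rw [← hft, ← tsum_mul_left, ← (hs2.mul_left 9).tsum_add hfs]
    refine Summable.tsum_le_tsum ?_ (summable_GG a h1) ((hs2.mul_left 9).add hfs)
    intro n
    have hnn : 0 ≤ H.indicator (fun n : ℕ => 1 / (n : ℝ) ^ s) (2 * n + 1) :=
      Set.indicator_nonneg (fun n _ => by positivity) _
    by_cases hn : n ∈ PC a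
    · rw [Set.indicator_of_mem hn]
      have hn1 : 1 ≤ n := hn.1.pos
      have hn0 : (1 : ℝ) ≤ n := by exact_mod_cast hn1
      have hpow1 : (1 : ℝ) ≤ (n : ℝ) ^ s := Real.one_le_rpow hn0 (by linarith)
      by_cases hB : n ≤ B
      · rw [if_pos (Finset.mem_range.mpr (by omega))]
        have : 1 / (n : ℝ) ^ s ≤ 1 := by
          rw [div_le_iff₀ (by linarith)]; linarith
        linarith
      · push Not at hB
        rw [if_neg (by rw [Finset.mem_range]; omega)]
        rw [Set.indicator_of_mem (hH n hn hB)]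
        have h6 : ((2 * n + 1 : ℕ) : ℝ) ≤ 3 * n := by
          push_cast; linarith
        have h7 : (((2 * n + 1 : ℕ) : ℝ)) ^ s ≤ (3 * n) ^ s :=
          Real.rpow_le_rpow (by positivity) h6 (by linarith)
        have h8 : ((3 : ℝ) * n) ^ s = 3 ^ s * (n : ℝ) ^ s :=
          Real.mul_rpow (by norm_num) (by positivity)
        have h9 : (3 : ℝ) ^ s ≤ 9 := by
          calc (3 : ℝ) ^ s ≤ 3 ^ (2 : ℝ) := Real.rpow_le_rpow_of_exponent_le (by norm_num) h2
            _ = 9 := by norm_num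
        have h10 : (((2 * n + 1 : ℕ) : ℝ)) ^ s ≤ 9 * (n : ℝ) ^ s := by
          rw [h8] at h7
          exact h7.trans (mul_le_mul_of_nonneg_right h9 (by positivity))
        have h11 : (0 : ℝ) < (((2 * n + 1 : ℕ) : ℝ)) ^ s := Real.rpow_pos_of_pos (by positivity) _
        rw [add_zero, mul_one_div, div_le_div_iff₀ (by linarith) h11]
        linarith
    · rw [Set.indicator_of_notMem hn]
      split_ifs <;> linarith
  have h6 : GG a s ≤ 9 * (∑' n : ℕ, H.indicator (fun n : ℕ => 1 / (n : ℝ) ^ s) n) + (B + 1) := by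
    linarith
  have h7 : c / 9 * Real.log (1 / (s - 1)) = (c * Real.log (1 / (s - 1))) / 9 := by ring
  rw [h7]
  linarith

/-- Divergence at `s = 1`. -/
theorem diverges (H : Set ℕ) {c C : ℝ} (hc : 0 < c)
    (h : ∀ s : ℝ, 1 < s → s ≤ 2 →
      c * Real.log (1 / (s - 1)) - C ≤ ∑' n : ℕ, H.indicator (fun n : ℕ => 1 / (n : ℝ) ^ s) n) :
    ¬ Summable (fun n : ℕ => H.indicator (fun n : ℕ => 1 / (n : ℝ)) n) := by
  intro hsum
  set D : ℝ := ∑' n : ℕ, H.indicator (fun n : ℕ => 1 / (n : ℝ)) n with hD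
  have hD0 : 0 ≤ D := tsum_nonneg fun n => Set.indicator_nonneg (fun n _ => by positivity) n
  set M : ℝ := (|C| + D + 1) / c with hM
  have hM0 : 0 < M := by positivity
  set s : ℝ := 1 + Real.exp (-M) with hs
  have he : 0 < Real.exp (-M) := Real.exp_pos _
  have he1 : Real.exp (-M) ≤ 1 := by
    rw [Real.exp_le_one_iff]; linarith
  have h1 : 1 < s := by linarith
  have h2 : s ≤ 2 := by linarith
  have h3 := h s h1 h2
  have h4 : ∑' n : ℕ, H.indicator (fun n : ℕ => 1 / (n : ℝ) ^ s) n ≤ D := by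
    refine Summable.tsum_le_tsum ?_ ((Real.summable_one_div_nat_rpow.mpr h1).indicator _) hsum
    intro n
    refine Set.indicator_le_indicator ?_
    rcases n.eq_zero_or_pos with rfl | hn
    · have : s ≠ 0 := by linarith
      simp [Real.zero_rpow this]
    · have hn1 : (1 : ℝ) ≤ n := by exact_mod_cast hn
      refine div_le_div_of_nonneg_left zero_le_one (by positivity) ?_
      conv_lhs => rw [← Real.rpow_one (n : ℝ)]
      exact Real.rpow_le_rpow_of_exponent_le hn1 h1.le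
  have h5 : Real.log (1 / (s - 1)) = M := by
    rw [hs, add_sub_cancel_left, one_div, ← Real.exp_neg, neg_neg, Real.log_exp]
  rw [h5] at h3
  have h6 : c * M = |C| + D + 1 := by rw [hM]; field_simp
  have := le_abs_self C
  linarith

/-- The counting function is not `O(x / (log x) ^ (1 + δ))`. -/
theorem not_few (H : Set ℕ)
    (hns : ¬ Summable (fun n : ℕ => H.indicator (fun n : ℕ => 1 / (n : ℝ)) n))
    (K δ : ℝ) (hδ : 0 < δ) (N₀ : ℕ) : ∃ N : ℕ, N₀ ≤ N ∧
      K * N / (Real.log N) ^ (1 + δ) < (Set.ncard {g | g ∈ H ∧ g ≤ N} : ℝ) := by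
  classical
  by_contra hcon
  push Not at hcon
  apply hns
  have hl2 : 0 < Real.log 2 := Real.log_pos (by norm_num)
  set f : ℕ → ℝ := H.indicator (fun n : ℕ => 1 / (n : ℝ)) with hf
  have hf0 : ∀ n, 0 ≤ f n := fun n => Set.indicator_nonneg (fun n _ => by positivity) n
  have hK0 : 0 ≤ |K| := abs_nonneg K
  -- bound on a block
  have hblock : ∀ k : ℕ, N₀ ≤ k → ∑ n ∈ Finset.Ico (2 ^ k) (2 ^ (k + 1)), f n ≤
      2 * |K| / (Real.log 2) ^ (1 + δ) * (1 / ((k + 1 : ℕ) : ℝ) ^ (1 + δ)) := by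
    intro k hk
    have hNk : N₀ ≤ 2 ^ (k + 1) := by
      have : k + 1 < 2 ^ (k + 1) := Nat.lt_two_pow_self
      omega
    have h1 := hcon (2 ^ (k + 1)) hNk
    have h2 : ∑ n ∈ Finset.Ico (2 ^ k) (2 ^ (k + 1)), f n ≤
        ∑ n ∈ (Finset.Ico (2 ^ k) (2 ^ (k + 1))).filter (· ∈ H), (1 / (2 : ℝ) ^ k) := by
      rw [Finset.sum_filter]
      refine Finset.sum_le_sum fun n hn => ?_
      rw [Finset.mem_Ico] at hn
      rw [hf, Set.indicator_apply]
      split_ifs with h
      · refine div_le_div_of_nonneg_left zero_le_one (by positivity) ?_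
        exact_mod_cast hn.1
      · exact le_rfl
    have h3 : (((Finset.Ico (2 ^ k) (2 ^ (k + 1))).filter (· ∈ H)).card : ℝ) ≤
        (Set.ncard {g | g ∈ H ∧ g ≤ 2 ^ (k + 1)} : ℝ) := by
      have hfin : {g | g ∈ H ∧ g ≤ 2 ^ (k + 1)}.Finite :=
        (Set.finite_Iic (2 ^ (k + 1))).subset fun g hg => hg.2
      have h3' : ((Finset.Ico (2 ^ k) (2 ^ (k + 1))).filter (· ∈ H)).card ≤
          Set.ncard {g | g ∈ H ∧ g ≤ 2 ^ (k + 1)} := by
        rw [← Set.ncard_coe_finset]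
        refine Set.ncard_le_ncard (fun g hg => ?_) hfin
        rw [Finset.mem_coe, Finset.mem_filter, Finset.mem_Ico] at hg
        exact ⟨hg.2, hg.1.2.le⟩
      exact_mod_cast h3'
    have h4 : Real.log ((2 ^ (k + 1) : ℕ) : ℝ) = ((k + 1 : ℕ) : ℝ) * Real.log 2 := by
      push_cast
      rw [Real.log_pow]
      push_cast
      ring
    rw [h4, Real.mul_rpow (by positivity) hl2.le] at h1
    rw [Finset.sum_const, nsmul_eq_mul] at h2
    have hA : (0 : ℝ) < ((k + 1 : ℕ) : ℝ) ^ (1 + δ) := Real.rpow_pos_of_pos (by positivity) _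
    have hB : (0 : ℝ) < (Real.log 2) ^ (1 + δ) := Real.rpow_pos_of_pos hl2 _
    have h5 : K * ((2 ^ (k + 1) : ℕ) : ℝ) /
        (((k + 1 : ℕ) : ℝ) ^ (1 + δ) * (Real.log 2) ^ (1 + δ)) ≤
        |K| * ((2 ^ (k + 1) : ℕ) : ℝ) /
        (((k + 1 : ℕ) : ℝ) ^ (1 + δ) * (Real.log 2) ^ (1 + δ)) := by
      apply div_le_div_of_nonneg_right _ (by positivity)
      exact mul_le_mul_of_nonneg_right (le_abs_self K) (by positivity)
    have h6 : (((Finset.Ico (2 ^ k) (2 ^ (k + 1))).filter (· ∈ H)).card : ℝ) * (1 / (2 : ℝ) ^ k) ≤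
        (|K| * ((2 ^ (k + 1) : ℕ) : ℝ) /
        (((k + 1 : ℕ) : ℝ) ^ (1 + δ) * (Real.log 2) ^ (1 + δ))) * (1 / (2 : ℝ) ^ k) :=
      mul_le_mul_of_nonneg_right (h3.trans (h1.trans h5)) (by positivity)
    refine h2.trans (h6.trans (le_of_eq ?_))
    push_cast
    rw [pow_succ]
    field_simp
  have hsumm : Summable (fun k : ℕ =>
      2 * |K| / (Real.log 2) ^ (1 + δ) * (1 / ((k + 1 : ℕ) : ℝ) ^ (1 + δ))) := by
    apply Summable.mul_left
    exact (summable_nat_add_iff 1).mpr (Real.summable_one_div_nat_rpow.mpr (by linarith))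
  set T : ℝ := ∑' k : ℕ, 2 * |K| / (Real.log 2) ^ (1 + δ) * (1 / ((k + 1 : ℕ) : ℝ) ^ (1 + δ))
    with hT
  set A : ℝ := ∑ n ∈ Finset.range (2 ^ N₀), f n with hA
  have hpart : ∀ k : ℕ, ∑ n ∈ Finset.range (2 ^ (N₀ + k)), f n ≤ A +
      ∑ j ∈ Finset.range k, 2 * |K| / (Real.log 2) ^ (1 + δ) *
        (1 / ((N₀ + j + 1 : ℕ) : ℝ) ^ (1 + δ)) := by
    intro k
    induction k with
    | zero => simp [hA]
    | succ k ih =>
      rw [Finset.sum_range_succ]
      have h1 : ∑ n ∈ Finset.range (2 ^ (N₀ + (k + 1))), f n =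
          ∑ n ∈ Finset.range (2 ^ (N₀ + k)), f n +
            ∑ n ∈ Finset.Ico (2 ^ (N₀ + k)) (2 ^ (N₀ + k + 1)), f n := by
        rw [Finset.range_eq_Ico, Finset.range_eq_Ico, ← add_assoc,
          Finset.sum_Ico_consecutive _ (Nat.zero_le _)
            (Nat.pow_le_pow_right (by norm_num) (by omega))]
      rw [h1]
      have h2 := hblock (N₀ + k) (by omega)
      linarith
  have hnn : ∀ k : ℕ, 0 ≤ 2 * |K| / (Real.log 2) ^ (1 + δ) *
      (1 / ((k + 1 : ℕ) : ℝ) ^ (1 + δ)) := by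
    intro k
    have hB : (0 : ℝ) < (Real.log 2) ^ (1 + δ) := Real.rpow_pos_of_pos hl2 _
    positivity
  have hpart2 : ∀ k : ℕ, ∑ j ∈ Finset.range k, 2 * |K| / (Real.log 2) ^ (1 + δ) *
        (1 / ((N₀ + j + 1 : ℕ) : ℝ) ^ (1 + δ)) ≤ T := by
    intro k
    have h1 : ∑ j ∈ Finset.range k, 2 * |K| / (Real.log 2) ^ (1 + δ) *
        (1 / ((N₀ + j + 1 : ℕ) : ℝ) ^ (1 + δ)) ≤ ∑ j ∈ Finset.range (N₀ + k),
          2 * |K| / (Real.log 2) ^ (1 + δ) * (1 / ((j + 1 : ℕ) : ℝ) ^ (1 + δ)) := by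
      rw [Finset.sum_range_add]
      have : 0 ≤ ∑ j ∈ Finset.range N₀,
          2 * |K| / (Real.log 2) ^ (1 + δ) * (1 / ((j + 1 : ℕ) : ℝ) ^ (1 + δ)) :=
        Finset.sum_nonneg fun j _ => hnn j
      linarith
    exact h1.trans (hsumm.sum_le_tsum _ fun j _ => hnn j)
  refine summable_of_sum_range_le (c := A + T) hf0 fun n => ?_
  have h1 : n ≤ 2 ^ (N₀ + n) := by
    have : N₀ + n < 2 ^ (N₀ + n) := Nat.lt_two_pow_self
    omega
  have h2 : ∑ i ∈ Finset.range n, f i ≤ ∑ i ∈ Finset.range (2 ^ (N₀ + n)), f i :=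
    Finset.sum_le_sum_of_subset_of_nonneg (Finset.range_mono h1) fun i _ _ => hf0 i
  have h3 := hpart n
  have h4 := hpart2 n
  linarith

end Pool.Agent.Y518.AM
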